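import Pool.Agent.Helper4.CI.Goals
import Pool.Agent.Helper20.Mono.Crd
import Pool.Agent.Helper20.Mono.Final
import Pool.Agent.Helper94.Mono.Carrier

/-! # M5, M6: multiplicities, the slice at the origin -/

set_option autoImplicit false

namespace Mono.CI.M56

open Finset Filter Topology Mono

variable {N k : ℕ}

/-- The retraction of `ℝ` to `ℚ`, made integral. -/
theorem exists_retr (κ : Fin N → ℝ) : ∃ (π : ℝ →ₗ[ℚ] ℚ) (m : ℕ) (a : Fin N → ℤ),
    π 1 = 1 ∧ 0 < m ∧ ∀ i, (a i : ℚ) = m * π (κ i) := by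
  obtain ⟨π, hπ⟩ : ∃ π : ℝ →ₗ[ℚ] ℚ, π 1 = 1 := by
    obtain ⟨π, hπ⟩ := LinearMap.exists_leftInverse_of_injective (Algebra.linearMap ℚ ℝ)
      (LinearMap.ker_eq_bot.mpr (algebraMap ℚ ℝ).injective)
    refine ⟨π, ?_⟩
    have := LinearMap.congr_fun hπ 1
    simpa using this
  have h1 : ∀ i, ∃ z : ℤ, (z : ℚ) = ((∏ i, (π (κ i)).den : ℕ) : ℚ) * π (κ i) := by
    intro i
    obtain ⟨q, hq⟩ := Finset.dvd_prod_of_mem (fun i => (π (κ i)).den) (Finset.mem_univ i)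
    refine ⟨q * (π (κ i)).num, ?_⟩
    rw [hq]
    push_cast
    have h2 := Rat.den_mul_eq_num (π (κ i))
    rw [← h2]
    ring
  choose a ha using h1
  exact ⟨π, _, a, hπ, Finset.prod_pos (fun i _ => (π (κ i)).den_pos), ha⟩

/-- values of the integral form -/
theorem retr_val {κ : Fin N → ℝ} {π : ℝ →ₗ[ℚ] ℚ} {m : ℕ} {a : Fin N → ℤ}
    (ha : ∀ i, (a i : ℚ) = m * π (κ i)) (x : Fin N → ℤ) :
    ((a ⬝ᵥ x : ℤ) : ℚ) = m * π (κ ⬝ᵥ toR x) := by
  unfold dotProduct toR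
  rw [map_sum]
  push_cast
  rw [Finset.mul_sum]
  refine Finset.sum_congr rfl fun i _ => ?_
  rw [ha i]
  have h4 : κ i * (x i : ℝ) = (x i : ℚ) • κ i := by
    rw [Rat.smul_def, mul_comm]
    push_cast
    rfl
  rw [h4, map_smul, smul_eq_mul]
  ring

/-- approximation of real directions by integral ones -/
theorem rat_approx (a : Fin N → ℝ) (S : Finset (Fin N → ℤ)) :
    ∃ a' : Fin N → ℤ, ∀ x ∈ S, (a ⬝ᵥ toR x = 0 → a' ⬝ᵥ x = 0) ∧
      (0 < a ⬝ᵥ toR x → 0 < a' ⬝ᵥ x) ∧ (a ⬝ᵥ toR x < 0 → a' ⬝ᵥ x < 0) := by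
  classical
  let V : Submodule ℚ ℝ := Submodule.span ℚ (Set.range a)
  have : FiniteDimensional ℚ V := FiniteDimensional.span_of_finite ℚ (Set.finite_range a)
  let B := Module.finBasis ℚ V
  let av : Fin N → V := fun i => ⟨a i, Submodule.subset_span ⟨i, rfl⟩⟩
  let q : Fin N → Fin (Module.finrank ℚ V) → ℚ := fun i j => B.repr (av i) j
  have hq : ∀ i, a i = ∑ j, (q i j : ℝ) * (B j : ℝ) := by
    intro i
    have h := B.sum_repr (av i)
    have h2 := congrArg (fun v : V => (v : ℝ)) h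
    simp only [av] at h2
    rw [← h2]
    push_cast
    refine Finset.sum_congr rfl fun j _ => ?_
    simp only [q, av]
    exact (Rat.smul_def _ _)
  let F : (Fin N → ℤ) → (Fin (Module.finrank ℚ V) → ℝ) → ℝ := fun x r =>
    ∑ i, (∑ j, (q i j : ℝ) * r j) * (x i : ℝ)
  have hF0 : ∀ x, F x (fun j => (B j : ℝ)) = a ⬝ᵥ toR x := by
    intro x
    simp only [F, dotProduct, toR]
    refine Finset.sum_congr rfl fun i _ => ?_
    rw [← hq i]
  have hFz : ∀ x, a ⬝ᵥ toR x = 0 → ∀ r, F x r = 0 := by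
    intro x hx r
    have h0 : ∑ i, (x i : ℚ) • av i = 0 := by
      apply Subtype.ext
      push_cast
      simp only [dotProduct, toR] at hx
      rw [← hx]
      refine Finset.sum_congr rfl fun i _ => ?_
      rw [Rat.smul_def]
      push_cast
      ring
    have h1 : ∀ j, ∑ i, (x i : ℚ) * q i j = 0 := by
      intro j
      have := congrArg (fun v => B.repr v j) h0
      simpa [q, map_sum, Finsupp.coe_finsetSum, Finset.sum_apply] using this
    have h2 : F x r = ∑ j, ((∑ i, (x i : ℚ) * q i j : ℚ) : ℝ) * r j := by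
      simp only [F]
      simp only [Finset.sum_mul]
      rw [Finset.sum_comm]
      refine Finset.sum_congr rfl fun j _ => ?_
      push_cast
      rw [Finset.sum_mul]
      refine Finset.sum_congr rfl fun i _ => ?_
      ring
    rw [h2]
    simp [h1]
  have hFc : ∀ x, Continuous (F x) := by
    intro x
    simp only [F]
    fun_prop
  have hopen : IsOpen {r | ∀ x ∈ S, (0 < a ⬝ᵥ toR x → 0 < F x r) ∧
      (a ⬝ᵥ toR x < 0 → F x r < 0)} := by
    have : {r | ∀ x ∈ S, (0 < a ⬝ᵥ toR x → 0 < F x r) ∧ (a ⬝ᵥ toR x < 0 → F x r < 0)} =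
        ⋂ x ∈ S, {r | (0 < a ⬝ᵥ toR x → 0 < F x r) ∧ (a ⬝ᵥ toR x < 0 → F x r < 0)} := by
      ext r
      simp
    rw [this]
    refine isOpen_biInter_finset fun x _ => ?_
    apply IsOpen.inter
    · by_cases h : 0 < a ⬝ᵥ toR x
      · simp only [h, true_imp_iff]
        exact isOpen_lt continuous_const (hFc x)
      · simp only [h, false_imp_iff]
        exact isOpen_univ
    · by_cases h : a ⬝ᵥ toR x < 0
      · simp only [h, true_imp_iff]
        exact isOpen_lt (hFc x) continuous_const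
      · simp only [h, false_imp_iff]
        exact isOpen_univ
  have hdense : DenseRange (Pi.map (fun (_ : Fin (Module.finrank ℚ V)) (r : ℚ) => (r : ℝ))) :=
    DenseRange.piMap fun _ => Rat.denseRange_cast
  obtain ⟨r, hr⟩ := hdense.exists_mem_open hopen ⟨fun j => (B j : ℝ), fun x _ => by
    rw [hF0]
    exact ⟨id, id⟩⟩
  let c : Fin N → ℚ := fun i => ∑ j, q i j * r j
  have hc : ∀ x, F x (Pi.map (fun (_ : Fin (Module.finrank ℚ V)) (r : ℚ) => (r : ℝ)) r) =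
      ((∑ i, c i * x i : ℚ) : ℝ) := by
    intro x
    simp only [F, c, Pi.map]
    push_cast
    rfl
  have h1 : ∀ i, ∃ z : ℤ, (z : ℚ) = ((∏ i, (c i).den : ℕ) : ℚ) * c i := by
    intro i
    obtain ⟨t, ht⟩ := Finset.dvd_prod_of_mem (fun i => (c i).den) (Finset.mem_univ i)
    refine ⟨t * (c i).num, ?_⟩
    rw [ht]
    push_cast
    have h2 := Rat.den_mul_eq_num (c i)
    rw [← h2]
    ring
  choose a' ha' using h1
  have hD : (0 : ℝ) < ((∏ i, (c i).den : ℕ) : ℝ) := by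
    have : 0 < (∏ i, (c i).den : ℕ) := Finset.prod_pos (fun i _ => (c i).den_pos)
    exact_mod_cast this
  have hval : ∀ x : Fin N → ℤ, ((a' ⬝ᵥ x : ℤ) : ℝ) = ((∏ i, (c i).den : ℕ) : ℝ) *
      F x (Pi.map (fun (_ : Fin (Module.finrank ℚ V)) (r : ℚ) => (r : ℝ)) r) := by
    intro x
    rw [hc x]
    have : ((a' ⬝ᵥ x : ℤ) : ℚ) = ((∏ i, (c i).den : ℕ) : ℚ) * ∑ i, c i * x i := by
      unfold dotProduct
      rw [Finset.mul_sum]
      push_cast
      refine Finset.sum_congr rfl fun i _ => ?_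
      rw [ha' i]
      push_cast
      ring
    exact_mod_cast congrArg (fun t : ℚ => (t : ℝ)) this
  refine ⟨a', fun x hx => ⟨fun h => ?_, fun h => ?_, fun h => ?_⟩⟩
  · have := hval x
    rw [hFz x h, mul_zero] at this
    exact_mod_cast this
  · have h2 := (hr x hx).1 h
    have h3 : (0 : ℝ) < ((a' ⬝ᵥ x : ℤ) : ℝ) := by
      rw [hval]
      exact mul_pos hD h2
    exact_mod_cast h3
  · have h2 := (hr x hx).2 h
    have h3 : ((a' ⬝ᵥ x : ℤ) : ℝ) < 0 := by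
      rw [hval]
      exact mul_neg_of_pos_of_neg hD h2
    exact_mod_cast h3

/-- lexicographic directions are ordinary directions -/
theorem lex_dir (κ l : Fin N → ℝ) (S : Finset (Fin N → ℤ)) :
    ∃ a : Fin N → ℝ, ∀ x ∈ S, (κ ⬝ᵥ toR x = 0 → a ⬝ᵥ toR x = l ⬝ᵥ toR x) ∧
      (0 < κ ⬝ᵥ toR x → 0 < a ⬝ᵥ toR x) ∧ (κ ⬝ᵥ toR x < 0 → a ⬝ᵥ toR x < 0) := by
  have hev : ∀ x ∈ S, ∀ᶠ M : ℝ in atTop,
      (0 < κ ⬝ᵥ toR x → 0 < M * (κ ⬝ᵥ toR x) + l ⬝ᵥ toR x) ∧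
      (κ ⬝ᵥ toR x < 0 → M * (κ ⬝ᵥ toR x) + l ⬝ᵥ toR x < 0) := by
    intro x _
    rcases lt_trichotomy (κ ⬝ᵥ toR x) 0 with h | h | h
    · filter_upwards [eventually_gt_atTop (-(l ⬝ᵥ toR x) / (κ ⬝ᵥ toR x))] with M hM
      refine ⟨fun h' => absurd h' (not_lt.mpr h.le), fun _ => ?_⟩
      rw [div_lt_iff_of_neg h] at hM
      linarith
    · refine Eventually.of_forall fun M => ⟨fun h' => ?_, fun h' => ?_⟩
      · rw [h] at h'; exact absurd h' (lt_irrefl _)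
      · rw [h] at h'; exact absurd h' (lt_irrefl _)
    · filter_upwards [eventually_gt_atTop (-(l ⬝ᵥ toR x) / (κ ⬝ᵥ toR x))] with M hM
      refine ⟨fun _ => ?_, fun h' => absurd h' (not_lt.mpr h.le)⟩
      rw [div_lt_iff₀ h] at hM
      linarith
  obtain ⟨M, hM⟩ := ((Finset.eventually_all S).mpr hev).exists
  refine ⟨M • κ + l, fun x hx => ?_⟩
  have e : (M • κ + l) ⬝ᵥ toR x = M * (κ ⬝ᵥ toR x) + l ⬝ᵥ toR x := by
    rw [add_dotProduct, smul_dotProduct, smul_eq_mul]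
  rw [e]
  refine ⟨fun h => ?_, (hM x hx).1, (hM x hx).2⟩
  rw [h, mul_zero, zero_add]

theorem dotR (x y : Fin N → ℤ) : toR x ⬝ᵥ toR y = ((x ⬝ᵥ y : ℤ) : ℝ) := by
  simp [dotProduct]

theorem toR_sub' (u v : Fin N → ℤ) : toR (u - v) = toR u - toR v := by
  funext i; simp

theorem prC_empty (φ : Option (Fin k) → Finset (Fin N → ℤ)) : prC ∅ φ = φ := by
  classical
  funext c
  unfold prC projS
  ext v
  simp

/-- cells are given by lexicographic minima -/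
theorem cell_lex {A : Option (Fin k) → Finset (Fin N → ℤ)} {κ l : Fin N → ℝ}
    {φ : Option (Fin k) → Finset (Fin N → ℤ)}
    (h3 : ∀ v ∈ A none, 1 < κ ⬝ᵥ toR v ∨ (κ ⬝ᵥ toR v = 1 ∧ 0 ≤ l ⬝ᵥ toR v))
    (h4 : (φ none).Nonempty)
    (h5 : ∀ v, v ∈ φ none ↔ v ∈ A none ∧ κ ⬝ᵥ toR v = 1 ∧ l ⬝ᵥ toR v = 0)
    (h6 : ∀ j v, v ∈ φ (some j) ↔ v ∈ A (some j) ∧ ∀ w ∈ A (some j),
      κ ⬝ᵥ toR v < κ ⬝ᵥ toR w ∨ (κ ⬝ᵥ toR v = κ ⬝ᵥ toR w ∧ l ⬝ᵥ toR v ≤ l ⬝ᵥ toR w))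
    (c : Option (Fin k)) (v : Fin N → ℤ) : v ∈ φ c ↔ v ∈ A c ∧ ∀ w ∈ A c,
      κ ⬝ᵥ toR v < κ ⬝ᵥ toR w ∨ (κ ⬝ᵥ toR v = κ ⬝ᵥ toR w ∧ l ⬝ᵥ toR v ≤ l ⬝ᵥ toR w) := by
  cases c with
  | some j => exact h6 j v
  | none =>
    rw [h5]
    refine and_congr_right fun hv => ⟨?_, ?_⟩
    · rintro ⟨h1, h2⟩ w hw
      rw [h1, h2]
      rcases h3 w hw with h | ⟨h, h'⟩
      · exact Or.inl h
      · exact Or.inr ⟨h.symm, h'⟩
    · intro h
      obtain ⟨v₀, hv₀⟩ := h4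
      rw [h5] at hv₀
      have h7 := h v₀ hv₀.1
      rw [hv₀.2.1, hv₀.2.2] at h7
      rcases h3 v hv with h8 | ⟨h8, h9⟩
      · rcases h7 with h7 | ⟨h7, -⟩
        · linarith
        · linarith
      · rcases h7 with h7 | ⟨h7, h10⟩
        · linarith
        · exact ⟨h8, le_antisymm h10 h9⟩

theorem sub1 {A : Option (Fin k) → Finset (Fin N → ℤ)} {b : Fin N → ℝ}
    (hb : ∀ i, 0 < b i) {φ : Option (Fin k) → Finset (Fin N → ℤ)} (hφ : φ ∈ cellsC A ∅ b) :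
    φ ∈ cfacesC A := by
  classical
  unfold cellsC at hφ
  rw [Finset.mem_filter] at hφ
  obtain ⟨hφA, κ, l, -, h2, h3, h4, h5, h6⟩ := hφ
  have h5' : ∀ v, v ∈ φ none ↔ v ∈ A none ∧ κ ⬝ᵥ toR v = 1 ∧ l ⬝ᵥ toR v = 0 := by
    intro v
    rw [h5, Finset.mem_filter]
  have h6' : ∀ j v, v ∈ φ (some j) ↔ v ∈ A (some j) ∧ ∀ w ∈ A (some j),
      κ ⬝ᵥ toR v < κ ⬝ᵥ toR w ∨ (κ ⬝ᵥ toR v = κ ⬝ᵥ toR w ∧ l ⬝ᵥ toR v ≤ l ⬝ᵥ toR w) := by
    intro j v
    rw [h6, Finset.mem_filter]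
  have hlex := cell_lex h3 h4 h5' h6'
  let S : Finset (Fin N → ℤ) := (univ.image (fun i : Fin N => (Pi.single i 1 : Fin N → ℤ))) ∪
    univ.biUnion (fun c : Option (Fin k) => ((A c) ×ˢ (A c)).image (fun p => p.2 - p.1))
  obtain ⟨a, ha⟩ := lex_dir κ l S
  obtain ⟨a', ha'⟩ := rat_approx a S
  have hS1 : ∀ i, (Pi.single i 1 : Fin N → ℤ) ∈ S := fun i =>
    Finset.mem_union_left _ (Finset.mem_image_of_mem _ (Finset.mem_univ i))
  have hS2 : ∀ c, ∀ v ∈ A c, ∀ w ∈ A c, w - v ∈ S := by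
    intro c v hv w hw
    refine Finset.mem_union_right _ (Finset.mem_biUnion.mpr ⟨c, Finset.mem_univ _, ?_⟩)
    exact Finset.mem_image.mpr ⟨(v, w), Finset.mem_product.mpr ⟨hv, hw⟩, rfl⟩
  have hpos : ∀ i, 0 < a' i := by
    intro i
    have hs := hS1 i
    have e : ∀ y : Fin N → ℝ, y ⬝ᵥ toR (Pi.single i 1 : Fin N → ℤ) = y i := by
      intro y
      simp [dotProduct, Pi.single_apply]
    have e' : a' ⬝ᵥ (Pi.single i 1 : Fin N → ℤ) = a' i := by simp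
    rw [← e']
    apply (ha' _ hs).2.1
    rcases h2 i (Finset.notMem_empty i) with h | ⟨h, h'⟩
    · apply (ha _ hs).2.1
      rw [e]; exact h
    · rw [(ha _ hs).1 (by rw [e]; exact h), e]
      linarith [hb i]
  have hcmp : ∀ c, ∀ v ∈ A c, ∀ w ∈ A c,
      ((κ ⬝ᵥ toR v < κ ⬝ᵥ toR w ∨ (κ ⬝ᵥ toR v = κ ⬝ᵥ toR w ∧ l ⬝ᵥ toR v ≤ l ⬝ᵥ toR w)) ↔
        a' ⬝ᵥ v ≤ a' ⬝ᵥ w) := by
    intro c v hv w hw
    have hs := hS2 c v hv w hw
    have e1 : κ ⬝ᵥ toR (w - v) = κ ⬝ᵥ toR w - κ ⬝ᵥ toR v := by rw [toR_sub', dotProduct_sub]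
    have e2 : l ⬝ᵥ toR (w - v) = l ⬝ᵥ toR w - l ⬝ᵥ toR v := by rw [toR_sub', dotProduct_sub]
    have e3 : a' ⬝ᵥ (w - v) = a' ⬝ᵥ w - a' ⬝ᵥ v := by rw [dotProduct_sub]
    have A1 := ha _ hs
    have A2 := ha' _ hs
    rw [e1, e2] at A1
    rw [e3] at A2
    rcases lt_trichotomy (κ ⬝ᵥ toR w - κ ⬝ᵥ toR v) 0 with h | h | h
    · have h7 := A2.2.2 (A1.2.2 h)
      constructor
      · rintro (h8 | ⟨h8, -⟩) <;> linarith
      · intro h8; linarith
    · have h7 := A1.1 h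
      rcases lt_trichotomy (l ⬝ᵥ toR w - l ⬝ᵥ toR v) 0 with h8 | h8 | h8
      · have h9 := A2.2.2 (by rw [h7]; exact h8)
        constructor
        · rintro (h10 | ⟨-, h10⟩) <;> linarith
        · intro h10; linarith
      · have h9 := A2.1 (by rw [h7]; exact h8)
        constructor
        · intro _; linarith
        · intro _
          right
          constructor <;> linarith
      · have h9 := A2.2.1 (by rw [h7]; exact h8)
        constructor
        · intro _; linarith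
        · intro _
          right
          constructor <;> linarith
    · have h7 := A2.2.1 (A1.2.1 h)
      constructor
      · intro _; linarith
      · intro _
        left
        linarith
  unfold cfacesC
  rw [Finset.mem_filter]
  refine ⟨hφA, a', hpos, fun c => ?_⟩
  ext v
  rw [hlex c v, mem_face]
  refine and_congr_right fun hv => ⟨fun h => ?_, fun h w hw => ?_⟩
  · exact (NA_eq (fun w hw => (hcmp c v hv w hw).mp (h w hw)) ⟨v, hv, rfl⟩).symm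
  · rw [hcmp c v hv w hw, h]
    exact NA_le hw

theorem sub2 {A : Option (Fin k) → Finset (Fin N → ℤ)} {b : Fin N → ℝ} (hA : Good A)
    {φ : Option (Fin k) → Finset (Fin N → ℤ)} (hφ : φ ∈ cfacesC A) : φ ∈ cellsC A ∅ b := by
  classical
  unfold cfacesC at hφ
  rw [Finset.mem_filter] at hφ
  obtain ⟨hφA, a, ha, hfa⟩ := hφ
  have hN := Fin20.NA_pos (hA.ne none) (hA.nonneg none) (hA.zero none) ha
  have hNR : (0 : ℝ) < (NA (A none) a : ℝ) := by exact_mod_cast hN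
  have hval : ∀ v : Fin N → ℤ, ((NA (A none) a : ℝ)⁻¹ • toR a) ⬝ᵥ toR v =
      (NA (A none) a : ℝ)⁻¹ * ((a ⬝ᵥ v : ℤ) : ℝ) := by
    intro v
    rw [smul_dotProduct, dotR, smul_eq_mul]
  unfold cellsC
  rw [Finset.mem_filter]
  refine ⟨hφA, (NA (A none) a : ℝ)⁻¹ • toR a, 0, by simp, ?_, ?_, ?_, ?_, ?_⟩
  · intro i _
    left
    rw [Pi.smul_apply, smul_eq_mul, toR_apply]
    exact mul_pos (inv_pos.2 hNR) (by exact_mod_cast ha i)
  · intro v hv
    rw [hval]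
    have h1 : (NA (A none) a : ℝ) ≤ ((a ⬝ᵥ v : ℤ) : ℝ) := by exact_mod_cast NA_le hv
    rcases h1.lt_or_eq with h | h
    · left
      rw [← div_eq_inv_mul, lt_div_iff₀ hNR]
      linarith
    · right
      rw [← h]
      exact ⟨inv_mul_cancel₀ hNR.ne', by simp⟩
  · rw [hfa none]
    obtain ⟨v, hv, hmin⟩ := Finset.exists_min_image (A none) (fun v => a ⬝ᵥ v) (hA.ne none)
    exact ⟨v, mem_face.mpr ⟨hv, (NA_eq hmin ⟨v, hv, rfl⟩).symm⟩⟩
  · rw [hfa none]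
    ext v
    rw [mem_face, Finset.mem_filter, hval]
    refine and_congr_right fun hv => ?_
    constructor
    · intro h
      rw [h]
      exact ⟨inv_mul_cancel₀ hNR.ne', by simp⟩
    · rintro ⟨h, -⟩
      have h2 : ((a ⬝ᵥ v : ℤ) : ℝ) = (NA (A none) a : ℝ) := by
        field_simp at h
        exact h
      exact_mod_cast h2
  · intro j
    rw [hfa (some j)]
    ext v
    rw [mem_face, Finset.mem_filter]
    refine and_congr_right fun hv => ?_
    constructor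
    · intro h w hw
      rw [hval, hval]
      have h1 : ((a ⬝ᵥ v : ℤ) : ℝ) ≤ ((a ⬝ᵥ w : ℤ) : ℝ) := by
        rw [h]
        exact_mod_cast NA_le hw
      have h2 : (NA (A none) a : ℝ)⁻¹ * ((a ⬝ᵥ v : ℤ) : ℝ) ≤
          (NA (A none) a : ℝ)⁻¹ * ((a ⬝ᵥ w : ℤ) : ℝ) :=
        mul_le_mul_of_nonneg_left h1 (inv_pos.2 hNR).le
      rcases h2.lt_or_eq with h3 | h3
      · exact Or.inl h3
      · exact Or.inr ⟨h3, by simp⟩
    · intro h
      refine (NA_eq (fun w hw => ?_) ⟨v, hv, rfl⟩).symm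
      have h1 := h w hw
      rw [hval, hval] at h1
      have h2 : (NA (A none) a : ℝ)⁻¹ * ((a ⬝ᵥ v : ℤ) : ℝ) ≤
          (NA (A none) a : ℝ)⁻¹ * ((a ⬝ᵥ w : ℤ) : ℝ) := by
        rcases h1 with h1 | ⟨h1, -⟩
        · exact h1.le
        · exact h1.le
      have h3 := le_of_mul_le_mul_left h2 (inv_pos.2 hNR)
      exact_mod_cast h3

end Mono.CI.M56

namespace Mono.CI

open Finset Mono

/-- M5. -/
theorem latCNe : LatCNe := by
  classical
  intro N k A b K φ hφ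
  unfold cellsC at hφ
  rw [Finset.mem_filter] at hφ
  obtain ⟨hφA, κ, l, h1, h2, h3, h4, h5, h6⟩ := hφ
  obtain ⟨π, m, a, hπ, hm, ha⟩ := M56.exists_retr κ
  have hproj : ∀ v : Fin N → ℤ, κ ⬝ᵥ toR (fun i => if i ∈ K then 0 else v i) = κ ⬝ᵥ toR v := by
    intro v
    unfold dotProduct toR
    refine Finset.sum_congr rfl fun i _ => ?_
    by_cases h : i ∈ K
    · rw [(h1 i h).1, zero_mul, zero_mul]
    · simp only [if_neg h]
  have hmem : m ∈ {m : ℕ | 0 < m ∧ ∃ κ : Fin N → ℤ,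
      (∀ j, ∀ u ∈ prC K φ (some j), ∀ v ∈ prC K φ (some j), κ ⬝ᵥ u = κ ⬝ᵥ v) ∧
      ∀ u ∈ prC K φ none, κ ⬝ᵥ u = (m : ℤ)} := by
    refine ⟨hm, a, ?_, ?_⟩
    · intro j u hu v hv
      unfold prC projS at hu hv
      obtain ⟨u', hu', rfl⟩ := Finset.mem_image.mp hu
      obtain ⟨v', hv', rfl⟩ := Finset.mem_image.mp hv
      rw [h6 j, Finset.mem_filter] at hu' hv'
      have e : κ ⬝ᵥ toR u' = κ ⬝ᵥ toR v' := by
        rcases hu'.2 v' hv'.1 with h | ⟨h, -⟩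
        · rcases hv'.2 u' hu'.1 with h' | ⟨h', -⟩
          · linarith
          · exact h'.symm
        · exact h
      have E1 := M56.retr_val ha (fun i => if i ∈ K then 0 else u' i)
      have E2 := M56.retr_val ha (fun i => if i ∈ K then 0 else v' i)
      rw [hproj] at E1 E2
      rw [e, ← E2] at E1
      exact_mod_cast E1
    · intro u hu
      unfold prC projS at hu
      obtain ⟨u', hu', rfl⟩ := Finset.mem_image.mp hu
      rw [h5, Finset.mem_filter] at hu'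
      have E1 := M56.retr_val ha (fun i => if i ∈ K then 0 else u' i)
      rw [hproj, hu'.2.1, hπ, mul_one] at E1
      exact_mod_cast E1
  have := Nat.sInf_mem ⟨m, hmem⟩
  exact this.1.ne'

/-- M6. -/
theorem cellsEmptyC : CellsEmptyC := by
  classical
  intro N k A b hA hb
  have h : cellsC A ∅ b = cfacesC A := by
    ext φ
    exact ⟨fun h => M56.sub1 hb h, fun h => M56.sub2 hA h⟩
  refine ⟨h, ?_⟩
  unfold zetaSC zetaC
  rw [h]
  simp only [M56.prC_empty]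

end Mono.CI
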